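import Pool.Agent.Lib.MP_7f581e_K.R.Main
import Pool.Agent.Lib.MP_7f581e_Sh.All
import Pool.Agent.Lib.MP_7f581e_A6.All
import Pool.Agent.Lib.MP_7f581e_A6.Iso

/-!
Alternating groups and groups `PSL(2, l)`, `l ≠ p`, in the inverse Galois problem over `𝔽_p(X)`.
If all the composition factors of a normal subgroup `N` of a finite group `G` are of prime order,
alternating, of Lie type in characteristic `p`, or groups `PSL(2, l)`, where `l ≥ 5` is a prime
different from `p` such that `2` or `3` is different from `p` and not a square modulo `l` (this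
means `l ≢ ± 1` modulo `24`, `12`, `8` for `p ≥ 5`, `p = 2`, `p = 3`), and if `G / N` is a Galois
group over `k(X)` (`k` a finite field of characteristic `p`), then so is `G`; for `N = G` there is
no condition on `G / N`.
-/

set_option autoImplicit false

universe u

namespace Pool.Agent.Results.MP_7f581e_nt.CrossCharacteristic

open MP7fR MP7fC MP7K

/-- The groups `PSL(2, l)`, where `l ≥ 5` is a prime different from `p` and `N = 2` or `N = 3` is
different from `p` and not a square modulo `l`. -/
def IsCrossPSL (p : ℕ) (S : Type) [Group S] : Prop :=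
  ∃ l N : ℕ, l.Prime ∧ 5 ≤ l ∧ l ≠ p ∧ (N = 2 ∨ N = 3) ∧ N ≠ p ∧ ¬ IsSquare (N : ZMod l) ∧
    Nonempty (S ≃* Matrix.ProjectiveSpecialLinearGroup (Fin 2) (ZMod l))

/-- The groups of prime order, the alternating groups `A_n` (`n ≥ 5`), the simple groups of Lie
type in characteristic `p` (`IsClassical`: linear, symplectic and unitary groups; `IsOrthogonal`;
`OfLieType`: simple quotients of `{g ∈ H(𝔽_p) : Φ(g) = g}`), and the groups `PSL(2, l)` of
`IsCrossPSL`. -/
def IsFactor (p : ℕ) [Fact p.Prime] (S : Type) [Group S] : Prop :=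
  (Nat.card S).Prime ∨ (∃ n : ℕ, 5 ≤ n ∧ Nonempty (S ≃* alternatingGroup (Fin n))) ∨
    MP7fE.IsClassical p S ∨ MP7Z.IsOrthogonal p S ∨ MP7Z.OfLieType p S ∨ IsCrossPSL p S

theorem isKernelFactor {p : ℕ} [hp : Fact p.Prime] (S : Type) [Group S] (h : IsFactor p S) :
    IsKernelFactor p S := by
  rcases h with h | ⟨n, h5, ⟨e⟩⟩ | h | h | h | ⟨l, N, hl, h5, hlp, hN, hNp, hsq, ⟨e⟩⟩
  · exact Or.inl h
  · by_cases hn : n = 6 ∧ p ≠ 2
    · obtain ⟨rfl, hp2⟩ := hn
      by_cases hp3 : p = 3
      · subst hp3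
        obtain ⟨-, H, _, h1, ⟨f⟩⟩ := MP7A.tIso
        have : IsSimpleGroup S := by
          obtain ⟨h0, -⟩ := MP7A.tIso
          exact MulEquiv.isSimpleGroup e
        exact Or.inr (Or.inr (Or.inl ⟨this, H, _, h1, ⟨e.trans f⟩⟩))
      · have hp5 : 5 ≤ p := by
          have h2 := hp.out.two_le
          have h4 : p ≠ 4 := by
            rintro rfl
            exact absurd hp.out (by decide)
          omega
        exact Or.inr (Or.inr (Or.inr (Or.inr (Or.inr
          (HasGA.congr e.symm (MP7A.aFinA p hp5))))))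
    · exact Or.inr (Or.inl ⟨n, h5, fun h6 => by
        by_contra h2
        exact hn ⟨h6, h2⟩, ⟨e⟩⟩)
  · exact Or.inr (Or.inr (Or.inl h))
  · exact Or.inr (Or.inr (Or.inr (Or.inl h)))
  · exact Or.inr (Or.inr (Or.inr (Or.inr (Or.inl h))))
  · have : Fact l.Prime := ⟨hl⟩
    exact Or.inr (Or.inr (Or.inr (Or.inr (Or.inr
      (HasGA.congr e.symm (MP7Sh.aFinP p l N hN hNp hlp h5 hsq))))))

/-- **Main result.** -/
theorem result {p : ℕ} [Fact p.Prime] {k : Type} [Field k] [Finite k] [CharP k p] {G : Type}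
    [Group G] [Finite G] (N : Subgroup G) [N.Normal]
    (hN : HasFactors (fun S [Group S] => IsFactor p S) N) :
    (Occurs (G ⧸ N) (RatFunc k) → Occurs G (RatFunc k)) ∧
      (OccursRegularly (G ⧸ N) k →
        (∀ (K : Type u) [Field K] [Algebra k K], OccursRegularly G K) ∧
          ∀ (K : Type u) [Field K] [Algebra k K], IsHilbertian K → Occurs G K) :=
  ⟨closureK k G N (hasFactors_mono isKernelFactor hN),
    closureK_regular N (hasFactors_mono isKernelFactor hN)⟩

end Pool.Agent.Results.MP_7f581e_nt.CrossCharacteristic
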