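import Pool.Agent.Lib.MP_7f581e_ntE.Final
import Pool.Agent.Lib.MP_7f581e_ntE.HilbCongr
import Pool.Agent.Lib.MP_7f581e_ntE.EmbedsGood

/-!
Embedding problems over Hilbertian fields of characteristic `p`, in particular over `F_q(X)`:
kernels with composition factors of order `p`, alternating, classical in characteristic `p`, or
complete; and, for embedding problems which have a weak solution, kernels built from these, abelian
groups and powers of classical groups in characteristic `p`.
-/

set_option autoImplicit false

universe u

namespace Pool.Agent.Results.MP_7f581e_nt.EmbeddingProblems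

open MP7fR MP7fC MP7fE

/-- **Main result.** -/
theorem result {p : ℕ} [Fact p.Prime] {k : Type} [Field k] [Finite k] [CharP k p]
    {K : Type u} [Field K] [Algebra k K]
    (hK : IsHilbertian K ∨
      ∃ (k' : Type u) (_ : Field k'), Finite k' ∧ Nonempty (RatFunc k' ≃+* K))
    {M : Type u} [Field M] [Algebra K M] [FiniteDimensional K M] [IsGalois K M]
    {E : Type} [Group E] (α : E →* (M ≃ₐ[K] M))
    (hα : Layered (IsFactor p k) (IsQuasiClassical p) α.ker) (hw : HasSection α ∨ WeakSolution α)
    {P : Type} [Group P] [TopologicalSpace P] [IsTopologicalGroup P] [CompactSpace P]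
    [T2Space P] [TotallyDisconnectedSpace P] [FirstCountableTopology P]
    (f : P →* E) (hf : Function.Surjective f) (hopen : IsOpen (f.ker : Set P))
    (hfac : ∀ (V : Subgroup P) [V.Normal], IsOpen (V : Set P) → V ≤ f.ker →
      HasFactors (IsFactor p k) (f.ker.map (QuotientGroup.mk' V))) : Embeds α f := by
  have h : IsHilbertian K := by
    rcases hK with h | ⟨k', _, hfin, ⟨θ⟩⟩
    · exact h
    · exact isHilbertian_congr θ (isHilbertian_ratFunc k')
  exact good_factor.embeds (p := p) goodSplit_quasiClassical h f hf hopen hfac α hα hw

end Pool.Agent.Results.MP_7f581e_nt.EmbeddingProblems
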