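import Pool.Agent.Lib.MP_7f581e_K.T.Fin

/-!
Closure of realizability over `k(X)`, `k` a finite field of characteristic `p`, under extensions.
Let `G = G₀ → G₁ → ... → G_m ≃ Q` be surjective homomorphisms of finite groups, all of whose
kernels are allowed (`GoodKernel`): (a) the composition factors of the kernel are in the list
`IsKernelFactor` (groups of prime order, alternating groups, simple groups of Lie type in
characteristic `p`, simple groups with a GA realization over `𝔽_p(t)`), or (b) the kernel is
`S ^ n`, `S` nonabelian simple, and the group acts on it through `A ≀ Sym(n)`, where `A` has a GA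
realization over `k(X)`, or (c) the same for `A = Inn S`, where `S` is a Galois group over `k(X)`.
If `Q` occurs over `k(X)`, then so does `G`; if `Q` occurs regularly over `k`, then so does `G`.
-/

set_option autoImplicit false

universe u

namespace Pool.Agent.Results.MP_7f581e_nt.ExtensionClosure

open MP7fR MP7fC MP7K

/-- **Main result.** -/
theorem result {p : ℕ} [Fact p.Prime] {k : Type} [Field k] [Finite k] [CharP k p] {Q G : Type}
    [Group Q] [Group G] [Finite G] (h : Tower p k Q G) :
    (Occurs Q (RatFunc k) → Occurs G (RatFunc k)) ∧
      (OccursRegularly Q k →
        (∀ (K : Type u) [Field K] [Algebra k K], OccursRegularly G K) ∧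
          ∀ (K : Type u) [Field K] [Algebra k K], IsHilbertian K → Occurs G K) :=
  ⟨tower_occurs h, tower_regular h⟩

end Pool.Agent.Results.MP_7f581e_nt.ExtensionClosure
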