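import Pool.Agent.Lib.MP_7f581e_U.I.Main

/-!
A bound for the primes which is uniform in the group.  For every `N` there is `n` such that for all
primes `p > n` the following is true.
(1) Let `G = G₀ → G₁ → ... → G_m ≃ Q` be surjective homomorphisms of finite groups, all of whose
kernels are allowed (`GoodN`): (a) the composition factors of the kernel are in the list
`IsKernelFactor` (groups of prime order, alternating groups, simple groups of Lie type in
characteristic `p`, simple groups with a GA realization over `𝔽_p(t)`), or (b) the kernel is
`T ^ r`, where `T` is a nonabelian simple group of (even) order at most `N`, on which the group acts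
through `A ≀ Sym(r)`, where `A` is generated by the inner automorphisms of `T` and by a group of
automorphisms which is isomorphic to a subgroup of `PGL₂(𝔽_p)`.  If `Q` occurs over `𝔽_p(X)`, then so
does `G`; if `Q` occurs regularly over `𝔽_p`, then so does `G`.
(2) Every finite group whose composition factors are in the list `IsKernelFactor` or are simple
groups `T` of (even) order at most `N`, for which `Aut T` is such a group `A`, occurs regularly over
`𝔽_p`; in particular it occurs over `𝔽_p(X)`.
-/

set_option autoImplicit false

universe u

namespace Pool.Agent.Results.MP_7f581e_nt.UniformBound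

open MP7fR MP7fC MP7U

/-- **Main result.** -/
theorem result (N : ℕ) : ∃ n : ℕ, ∀ (p : ℕ) [Fact p.Prime], n < p →
    (∀ (Q G : Type) [Group Q] [Group G] [Finite G], TowerN N p Q G →
      (Occurs Q (RatFunc (ZMod p)) → Occurs G (RatFunc (ZMod p))) ∧
      (OccursRegularly Q (ZMod p) →
        (∀ (K : Type u) [Field K] [Algebra (ZMod p) K], OccursRegularly G K) ∧
          ∀ (K : Type u) [Field K] [Algebra (ZMod p) K], IsHilbertian K → Occurs G K)) ∧
    ∀ (G : Type) [Group G] [Finite G], HasFactors (IsFacN N p) G →
      (∀ (K : Type u) [Field K] [Algebra (ZMod p) K], OccursRegularly G K) ∧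
        ∀ (K : Type u) [Field K] [Algebra (ZMod p) K], IsHilbertian K → Occurs G K :=
  uniform_main N

end Pool.Agent.Results.MP_7f581e_nt.UniformBound
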